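import Pool.Agent.N483.KM.StmW
import Pool.Agent.Y510.RG.Limw

/-!
# Concentration passes from the limit to the approximations (project KM, REV)
-/

set_option autoImplicit false

namespace Pool.Agent.N426.KM.Rev

open MeasureTheory Set Filter Topology
open scoped ENNReal InnerProductSpace
open Pool.Agent.W695.KH (Eu)
open Pool.Agent.R754.KG (E)
open Pool.Agent.Y506.RG
open Pool.Agent.Y506.PV (CcW)
open Pool.Agent.Y510.RG (conv ka KK VW_close int_mul)
open Pool.Agent.N483.KM (S_REV)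

section

variable {n : ℕ}

/-- hyperplanes have measure zero -/
theorem hyp_null {a : Eu (Fin n)} (ha : a ≠ 0) (m : ℝ) :
    volume {x : Eu (Fin n) | ⟪x, a⟫_ℝ = m} = 0 := by
  have hn : ⟪a, a⟫_ℝ ≠ 0 := inner_self_ne_zero.2 ha
  have h1 : {x : Eu (Fin n) | ⟪x, a⟫_ℝ = m} = (fun x => x + -((m / ⟪a, a⟫_ℝ) • a)) ⁻¹'
      (((ℝ ∙ a)ᗮ : Submodule ℝ (Eu (Fin n))) : Set (Eu (Fin n))) := by
    ext x
    rw [mem_ofPred_eq, mem_preimage, SetLike.mem_coe,
      Submodule.mem_orthogonal_singleton_iff_inner_left, inner_add_left, inner_neg_left,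
      real_inner_smul_left, div_mul_cancel₀ _ hn]
    constructor
    · intro h
      rw [h]
      ring
    · intro h
      linarith
  rw [h1, measure_preimage_add_right]
  refine Measure.addHaar_submodule volume _ fun h => ?_
  have h2 : a ∈ (ℝ ∙ a)ᗮ := by rw [h]; trivial
  rw [Submodule.mem_orthogonal_singleton_iff_inner_left] at h2
  exact hn h2

theorem inner_int {w : Eu (Fin n) → ℝ} (h : Adm w) (a : Eu (Fin n)) :
    Integrable (fun x => ⟪x, a⟫_ℝ * w x) ∧ Integrable (fun x => ⟪x, a⟫_ℝ ^ 2 * w x) := by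
  have hx1 : ∀ x : Eu (Fin n), ‖x‖ ≤ 1 + ‖x‖ ^ 2 := fun x => by nlinarith [sq_nonneg (‖x‖ - 1)]
  have hx2 : ∀ x : Eu (Fin n), ‖x‖ ^ 2 ≤ 1 + ‖x‖ ^ 2 := fun x => by linarith
  have hc : Continuous fun x : Eu (Fin n) => ⟪x, a⟫_ℝ := continuous_id.inner continuous_const
  refine ⟨int_mul (B := ‖a‖) h.int hc fun x => ?_,
    int_mul (B := ‖a‖ ^ 2) h.int (hc.pow 2) fun x => ?_⟩
  · have h1 := abs_real_inner_le_norm x a
    have h2 := mul_le_mul_of_nonneg_left (hx1 x) (norm_nonneg a)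
    linarith
  · rw [abs_pow]
    have h1 := pow_le_pow_left₀ (abs_nonneg _) (abs_real_inner_le_norm x a) 2
    have h2 := mul_le_mul_of_nonneg_left (hx2 x) (sq_nonneg ‖a‖)
    rw [mul_pow] at h1
    linarith

/-- the variances of linear forms are positive -/
theorem VW_pos {w : Eu (Fin n) → ℝ} (h : Adm w) {a : Eu (Fin n)} (ha : a ≠ 0) :
    0 < VW w fun x => ⟪x, a⟫_ℝ := by
  obtain ⟨h1, h2⟩ := inner_int h a
  obtain ⟨m, hm⟩ : ∃ m : ℝ, m = EW w fun x => ⟪x, a⟫_ℝ := ⟨_, rfl⟩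
  have h3 := VW_shift h (fun x => ⟪x, a⟫_ℝ) h1 h2 m
  rw [← hm, sub_self, zero_pow two_ne_zero, add_zero] at h3
  rw [← h3]
  unfold EW
  refine div_pos ?_ h.pos
  have i1 : Integrable fun x => (⟪x, a⟫_ℝ - m) ^ 2 * w x := by
    have i2 := (h2.sub (h1.const_mul (2 * m))).add (h.one.const_mul (m ^ 2))
    refine i2.congr (Eventually.of_forall fun x => ?_)
    simp only [Pi.add_apply, Pi.sub_apply]
    ring
  rw [integral_pos_iff_support_of_nonneg (fun x => mul_nonneg (sq_nonneg _) (h.nonneg x)) i1]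
  have h4 : 0 < volume (Function.support w) := by
    have := h.pos
    rwa [integral_pos_iff_support_of_nonneg h.nonneg h.one] at this
  have h5 : Function.support w \ {x : Eu (Fin n) | ⟪x, a⟫_ℝ = m} ⊆
      Function.support fun x => (⟪x, a⟫_ℝ - m) ^ 2 * w x := by
    rintro x ⟨hx1, hx2⟩
    rw [Function.mem_support] at hx1 ⊢
    exact mul_ne_zero (pow_ne_zero 2 (sub_ne_zero.2 hx2)) hx1
  refine lt_of_lt_of_le ?_ (measure_mono h5)
  rw [measure_sdiff_null (hyp_null ha m)]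
  exact h4

/-- the variance of a linear form is continuous on the sphere -/
theorem VW_cont {w : Eu (Fin n) → ℝ} (h : Adm w) :
    ContinuousOn (fun a : Eu (Fin n) => VW w fun x => ⟪x, a⟫_ℝ) (Metric.sphere 0 1) := by
  have hx1 : ∀ x : Eu (Fin n), ‖x‖ ≤ 1 + ‖x‖ ^ 2 := fun x => by nlinarith [sq_nonneg (‖x‖ - 1)]
  have hx2 : ∀ x : Eu (Fin n), ‖x‖ ^ 2 ≤ 1 + ‖x‖ ^ 2 := fun x => by linarith
  have c1 : ContinuousOn (fun a : Eu (Fin n) => ∫ x, ⟪x, a⟫_ℝ * w x) (Metric.sphere 0 1) := by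
    refine continuousOn_of_dominated (bound := fun x => (1 + ‖x‖ ^ 2) * w x)
      (fun a _ => (inner_int h a).1.aestronglyMeasurable) (fun a ha => ?_) h.int
      (Eventually.of_forall fun x => ?_)
    · refine Eventually.of_forall fun x => ?_
      rw [mem_sphere_zero_iff_norm] at ha
      rw [norm_mul, Real.norm_eq_abs, Real.norm_eq_abs, abs_of_nonneg (h.nonneg x)]
      refine mul_le_mul_of_nonneg_right ?_ (h.nonneg x)
      have h1 := abs_real_inner_le_norm x a
      rw [ha, mul_one] at h1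
      exact h1.trans (hx1 x)
    · exact ((continuous_const.inner continuous_id).mul continuous_const).continuousOn
  have c2 : ContinuousOn (fun a : Eu (Fin n) => ∫ x, ⟪x, a⟫_ℝ ^ 2 * w x) (Metric.sphere 0 1) := by
    refine continuousOn_of_dominated (bound := fun x => (1 + ‖x‖ ^ 2) * w x)
      (fun a _ => (inner_int h a).2.aestronglyMeasurable) (fun a ha => ?_) h.int
      (Eventually.of_forall fun x => ?_)
    · refine Eventually.of_forall fun x => ?_
      rw [mem_sphere_zero_iff_norm] at ha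
      rw [norm_mul, Real.norm_eq_abs, Real.norm_eq_abs, abs_of_nonneg (h.nonneg x)]
      refine mul_le_mul_of_nonneg_right ?_ (h.nonneg x)
      rw [abs_pow]
      have h1 := abs_real_inner_le_norm x a
      rw [ha, mul_one] at h1
      exact (pow_le_pow_left₀ (abs_nonneg _) h1 2).trans (hx2 x)
    · exact (((continuous_const.inner continuous_id).pow 2).mul continuous_const).continuousOn
  unfold VW EW
  exact (c2.div_const _).sub ((c1.div_const _).pow 2)

theorem VW_smul (w : Eu (Fin n) → ℝ) (c : ℝ) (a : Eu (Fin n)) :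
    VW w (fun x => ⟪x, c • a⟫_ℝ) = c ^ 2 * VW w fun x => ⟪x, a⟫_ℝ := by
  unfold VW
  have e1 : (fun x : Eu (Fin n) => ⟪x, c • a⟫_ℝ) = fun x => c * ⟪x, a⟫_ℝ := by
    funext x
    rw [real_inner_smul_right]
  have e2 : (fun x : Eu (Fin n) => ⟪x, c • a⟫_ℝ ^ 2) = fun x => c ^ 2 * ⟪x, a⟫_ℝ ^ 2 := by
    funext x
    rw [real_inner_smul_right]
    ring
  simp only
  rw [e1, e2, EW_const_mul, EW_const_mul]
  ring

end

/-- concentration passes from the limit to the approximations -/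
theorem t_REV : S_REV := by
  intro n κ δ ε w W hκ hε hw hW hlim hcc
  have hx1 : ∀ x : Eu (Fin n), ‖x‖ ≤ 1 + ‖x‖ ^ 2 := fun x => by nlinarith [sq_nonneg (‖x‖ - 1)]
  have hx2 : ∀ x : Eu (Fin n), 1 ≤ 1 + ‖x‖ ^ 2 := fun x => by nlinarith [sq_nonneg ‖x‖]
  have hx3 : ∀ x : Eu (Fin n), ‖x‖ ^ 2 ≤ 1 + ‖x‖ ^ 2 := fun x => by linarith
  have hm := hw.pos
  -- the masses
  have hmj : Tendsto (fun j => ∫ x, W j x) atTop (𝓝 (∫ x, w x)) := by
    rw [tendsto_iff_norm_sub_tendsto_zero]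
    refine squeeze_zero' (Eventually.of_forall fun j => norm_nonneg _) ?_ hlim
    filter_upwards [hW] with j hj
    have h3 := conv (v := fun _ => (1:ℝ)) (B := 1) hw.int hj.int continuous_const (fun x => by
      rw [abs_one, one_mul]; exact hx2 x)
    simpa using h3
  have hka : Tendsto (fun j => ka w (W j)) atTop (𝓝 0) := by
    unfold ka
    have h1 := (hlim.div hmj hm.ne').mul_const (1 + KK w)
    rw [zero_div, zero_mul] at h1
    exact h1
  -- the error
  obtain ⟨e, he⟩ : ∃ e : ℕ → ℝ, e = fun j => 1 * ka w (W j) + 1 * ka w (W j) *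
      (2 * (1 * KK w) + 1 * ka w (W j)) := ⟨_, rfl⟩
  have he0 : Tendsto e atTop (𝓝 0) := by
    rw [he]
    have := (hka.const_mul 1).add ((hka.const_mul 1).mul
        ((hka.const_mul 1).const_add (2 * (1 * KK w))))
    simpa using this
  -- the smallest variance of a linear form
  obtain ⟨m, hm0, hmm⟩ : ∃ m : ℝ, 0 < m ∧ ∀ a : Eu (Fin n), ‖a‖ = 1 →
      m ≤ VW w fun x => ⟪x, a⟫_ℝ := by
    rcases (Metric.sphere (0 : Eu (Fin n)) 1).eq_empty_or_nonempty with h | h
    · refine ⟨1, one_pos, fun a ha => ?_⟩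
      have : a ∈ (Metric.sphere (0 : Eu (Fin n)) 1) := by rwa [mem_sphere_zero_iff_norm]
      rw [h] at this
      exact this.elim
    · obtain ⟨b, hb, hmin⟩ := (isCompact_sphere (0 : Eu (Fin n)) 1).exists_isMinOn h (VW_cont hw)
      refine ⟨_, VW_pos hw (a := b) ?_, fun a ha => ?_⟩
      · rintro rfl
        rw [mem_sphere_zero_iff_norm, norm_zero] at hb
        exact zero_ne_one hb
      · exact hmin (by rwa [mem_sphere_zero_iff_norm])
  filter_upwards [hW, he0.eventually (gt_mem_nhds hε),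
    he0.eventually (gt_mem_nhds (show (0:ℝ) < 3 / 4 * m by positivity))] with j hj hj1 hj2
  rw [he] at hj1 hj2
  -- comparison of the variances of linear forms
  have hq1 : ∀ a : Eu (Fin n), ‖a‖ = 1 →
      VW w (fun x => ⟪x, a⟫_ℝ) ≤ 4 * VW (W j) fun x => ⟪x, a⟫_ℝ := by
    intro a ha
    have hb1 : ∀ x, |⟪x, a⟫_ℝ| ≤ 1 * (1 + ‖x‖ ^ 2) := fun x => by
      have h1 := abs_real_inner_le_norm x a
      rw [ha, mul_one] at h1
      have h2 := hx1 x
      linarith
    have hb2 : ∀ x, |⟪x, a⟫_ℝ ^ 2| ≤ 1 * (1 + ‖x‖ ^ 2) := fun x => by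
      have h1 := abs_real_inner_le_norm x a
      rw [ha, mul_one] at h1
      have h2 := pow_le_pow_left₀ (abs_nonneg _) h1 2
      rw [abs_pow]
      have h3 := hx3 x
      linarith
    have hc1 : Continuous (fun x : Eu (Fin n) => ⟪x, a⟫_ℝ) := continuous_id.inner continuous_const
    have h1 := VW_close hw.int hj.int hm hj.pos hc1 hb1 hb2
    have h2 := hmm a ha
    have h3 := (abs_le.1 h1).1
    linarith
  have hq : ∀ a : Eu (Fin n), VW w (fun x => ⟪x, a⟫_ℝ) ≤ 4 * VW (W j) fun x => ⟪x, a⟫_ℝ := by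
    intro a
    by_cases ha : a = 0
    · have h1 : a = (0:ℝ) • a := by rw [ha, smul_zero]
      rw [h1, VW_smul, VW_smul]
      simp
    · have hna : ‖a‖ ≠ 0 := norm_ne_zero_iff.2 ha
      obtain ⟨u, hu⟩ : ∃ u : Eu (Fin n), u = ‖a‖⁻¹ • a := ⟨_, rfl⟩
      have h1 : ‖a‖ • u = a := by rw [hu, smul_smul, mul_inv_cancel₀ hna, one_smul]
      have h2 : ‖u‖ = 1 := by
        rw [hu, norm_smul, norm_inv, norm_norm, inv_mul_cancel₀ hna]
      have h3 := mul_le_mul_of_nonneg_left (hq1 u h2) (sq_nonneg ‖a‖)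
      have h5 := VW_smul w ‖a‖ u
      have h6 := VW_smul (W j) ‖a‖ u
      rw [h1] at h5 h6
      rw [h5, h6]
      linarith
  intro k hk T s hs hvar v hvd hv1 hgrad
  have hTc : Continuous T := T.continuous_of_finiteDimensional
  have h1 : VW w (fun x => v (T x)) ≤ δ := by
    refine hcc k hk T (4 * s) (by linarith) ?_ v hvd hv1 ?_
    · intro θ hθ
      have h2 := hvar θ hθ
      have h3 : ∀ x, ⟪T x, θ⟫_ℝ = ⟪x, LinearMap.adjoint T θ⟫_ℝ := fun x =>
        (LinearMap.adjoint_inner_right T x θ).symm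
      have h4 := hq (LinearMap.adjoint T θ)
      simp only [h3] at h2 ⊢
      linarith
    · intro y
      refine (hgrad y).trans (le_of_eq ?_)
      have h4 : Real.sqrt (4 * s) = 2 * Real.sqrt s := by
        rw [Real.sqrt_mul (by norm_num), show (4 : ℝ) = 2 ^ 2 by norm_num,
          Real.sqrt_sq (by norm_num)]
      rw [h4, div_div]
  have hvb : ∀ x, |v (T x)| ≤ 1 * (1 + ‖x‖ ^ 2) := fun x => by
    have := hv1 (T x); have := hx2 x; linarith
  have hvb2 : ∀ x, |v (T x) ^ 2| ≤ 1 * (1 + ‖x‖ ^ 2) := fun x => by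
    have h1 := hv1 (T x)
    have h2 := hx2 x
    rw [abs_pow]
    have h3 := abs_nonneg (v (T x))
    nlinarith
  have h2 := VW_close hw.int hj.int hm hj.pos (hvd.continuous.comp hTc) hvb hvb2
  have h3 := (abs_le.1 h2).2
  simp only [Function.comp_def] at h3
  linarith

end Pool.Agent.N426.KM.Rev
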